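import Mathlib
import Pool.Agent.Helper923.HStrict
import Pool.Agent.Helper923.HConv

set_option autoImplicit false

namespace Pool.Agent.Results.MP_392d13_nt.Structure

open Filter Topology

/-- `N n A`: the number of integers `m` with `1 ≤ m ≤ n` divisible by no element of `A`. -/
def N (n : ℕ) (A : Finset ℕ) : ℕ :=
  ((Finset.Icc 1 n).filter (fun m => ∀ a ∈ A, ¬ a ∣ m)).card

/-- `A` is admissible for `c` and `n`: its elements lie in `(1, n]`, are pairwise coprime, and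
their reciprocals sum to less than `c`. -/
def Admissible (c : ℝ) (n : ℕ) (A : Finset ℕ) : Prop :=
  (∀ a ∈ A, 1 < a ∧ a ≤ n) ∧ (∀ a ∈ A, ∀ b ∈ A, a ≠ b → Nat.Coprime a b) ∧
    ∑ a ∈ A, (1 : ℝ) / a < c

/-- `M c n`: the minimum of `N n A` over all admissible `A`. -/
noncomputable def M (c : ℝ) (n : ℕ) : ℕ := sInf {k : ℕ | ∃ A : Finset ℕ, Admissible c n A ∧ N n A = k}

/-- `Q c n`: the primes `q ≤ n` for which the reciprocals of the primes in `[q, n]` sum to at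
most `c`, that is, the longest initial segment of the decreasing list of the primes `≤ n` whose
reciprocal sum is at most `c`. -/
noncomputable def Q (c : ℝ) (n : ℕ) : Finset ℕ :=
  (Finset.Icc 1 n).filter
    (fun q => q.Prime ∧ ∑ p ∈ (Finset.Icc q n).filter Nat.Prime, (1 : ℝ) / p ≤ c)

open Pool.Agent.Helper923 in
lemma N_eq (n : ℕ) (A : Finset ℕ) : N n A = HCount.F A n := rfl

open Pool.Agent.Helper923 in
lemma Q_eq (c : ℝ) (n : ℕ) : Q c n = HFinal.QQ c n := rfl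

open Pool.Agent.Helper923 in
lemma M_le {c : ℝ} {n : ℕ} {A : Finset ℕ} (h : Admissible c n A) : M c n ≤ N n A :=
  Nat.sInf_le ⟨A, h, rfl⟩

lemma M_attained {c : ℝ} (hc : 0 < c) (n : ℕ) : ∃ A : Finset ℕ, Admissible c n A ∧ N n A = M c n := by
  have : ({k : ℕ | ∃ A : Finset ℕ, Admissible c n A ∧ N n A = k}).Nonempty := by
    refine ⟨N n ∅, ∅, ⟨by simp, by simp, by simpa using hc⟩, rfl⟩
  exact Nat.sInf_mem this

open Pool.Agent.Helper923 in
lemma lower_M {c : ℝ} (hc : 0 < c) {ε : ℝ} (hε : 0 < ε) :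
    ∀ᶠ n : ℕ in atTop, n * (HRho.rho (Real.exp c) - ε) ≤ (M c n : ℝ) := by
  obtain ⟨N₀, hN₀⟩ := HReduce.reduce c ε hε
  filter_upwards [eventually_ge_atTop N₀] with n hn
  obtain ⟨A, hA, hAM⟩ := M_attained hc n
  rw [← hAM, N_eq]
  exact hN₀ n hn A hA.1 hA.2.1 hA.2.2.le

open Pool.Agent.Helper923 in
lemma lower_Q {c : ℝ} (hc : 0 < c) {ε : ℝ} (hε : 0 < ε) :
    ∀ᶠ n : ℕ in atTop, n * (HRho.rho (Real.exp c) - ε) ≤ (N n (Q c n) : ℝ) := by
  obtain ⟨N₀, hN₀⟩ := HReduce.reduce c ε hε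
  filter_upwards [eventually_ge_atTop N₀] with n hn
  have h := HFinal.QQ_mem hc n
  rw [N_eq, Q_eq]
  exact hN₀ n hn _ h.1 h.2.1 h.2.2

open Pool.Agent.Helper923 in
lemma upper_Q {c : ℝ} (hc : 0 < c) {ε : ℝ} (hε : 0 < ε) :
    ∀ᶠ n : ℕ in atTop, (N n (Q c n) : ℝ) ≤ n * (HRho.rho (Real.exp c) + ε) :=
  HFinal.QQ_upper hc hε

open Pool.Agent.Helper923 in
lemma upper_M {c : ℝ} (hc : 0 < c) {ε : ℝ} (hε : 0 < ε) :
    ∀ᶠ n : ℕ in atTop, (M c n : ℝ) ≤ n * (HRho.rho (Real.exp c) + ε) := by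
  -- use the set `Q c' n` for `c'` slightly below `c`
  have hcont : Tendsto (fun c' : ℝ => HRho.rho (Real.exp c')) (𝓝[<] c) (𝓝 (HRho.rho (Real.exp c))) :=
    ((HRho.rho_cont.comp Real.continuous_exp).tendsto c).mono_left nhdsWithin_le_nhds
  have h1 := hcont.eventually_le_const
    (show HRho.rho (Real.exp c) < HRho.rho (Real.exp c) + ε / 2 by linarith)
  have h2 : ∀ᶠ c' : ℝ in 𝓝[<] c, 0 < c' :=
    (eventually_gt_nhds hc).filter_mono nhdsWithin_le_nhds
  have h3 : ∀ᶠ c' : ℝ in 𝓝[<] c, c' < c := eventually_mem_nhdsWithin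
  obtain ⟨c', hc'1, hc'2, hc'3⟩ := (h1.and (h2.and h3)).exists
  filter_upwards [upper_Q hc'2 (show 0 < ε / 2 by positivity)] with n hn
  have h := HFinal.QQ_mem hc'2 n
  have hle : M c n ≤ N n (Q c' n) := M_le ⟨h.1, h.2.1, lt_of_le_of_lt h.2.2 hc'3⟩
  have hle' : (M c n : ℝ) ≤ N n (Q c' n) := by exact_mod_cast hle
  refine hle'.trans (hn.trans ?_)
  apply mul_le_mul_of_nonneg_left _ (by positivity)
  linarith

lemma tendsto_of_bounds {f : ℕ → ℝ} {L : ℝ}
    (h1 : ∀ ε : ℝ, 0 < ε → ∀ᶠ n : ℕ in atTop, n * (L - ε) ≤ f n)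
    (h2 : ∀ ε : ℝ, 0 < ε → ∀ᶠ n : ℕ in atTop, f n ≤ n * (L + ε)) :
    Tendsto (fun n : ℕ => f n / n) atTop (𝓝 L) := by
  rw [Metric.tendsto_atTop']
  intro ε hε
  obtain ⟨N₁, hN₁⟩ := eventually_atTop.mp ((h1 (ε / 2) (by positivity)).and
    ((h2 (ε / 2) (by positivity)).and (eventually_gt_atTop 0)))
  refine ⟨N₁, fun n hn => ?_⟩
  obtain ⟨h3, h4, h5⟩ := hN₁ n hn.le
  have hn0 : (0 : ℝ) < n := by exact_mod_cast h5
  rw [Real.dist_eq, abs_lt]
  have h6 : L - ε / 2 ≤ f n / n := by rw [le_div_iff₀ hn0]; linarith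
  have h7 : f n / n ≤ L + ε / 2 := by rw [div_le_iff₀ hn0]; linarith
  constructor <;> linarith


lemma tendsto_M {c : ℝ} (hc : 0 < c) :
    Tendsto (fun n : ℕ => (M c n : ℝ) / n) atTop (𝓝 (Pool.Agent.Helper923.HRho.rho (Real.exp c))) :=
  tendsto_of_bounds (fun ε hε => lower_M hc hε) (fun ε hε => upper_M hc hε)

lemma tendsto_NQ {c : ℝ} (hc : 0 < c) :
    Tendsto (fun n : ℕ => (N n (Q c n) : ℝ) / n) atTop
      (𝓝 (Pool.Agent.Helper923.HRho.rho (Real.exp c))) :=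
  tendsto_of_bounds (fun ε hε => lower_Q hc hε) (fun ε hε => upper_Q hc hε)

/-- ratio to the minimum tends to one iff the density tends to `ρ (e ^ c)` -/
lemma ratio_iff {c : ℝ} (hc : 0 < c) (f : ℕ → ℕ) :
    Tendsto (fun n : ℕ => (f n : ℝ) / M c n) atTop (𝓝 1) ↔
      Tendsto (fun n : ℕ => (f n : ℝ) / n) atTop (𝓝 (Pool.Agent.Helper923.HRho.rho (Real.exp c))) := by
  have hρ := (Pool.Agent.Helper923.HRho.rho_pos (Real.exp c)).ne'
  have hM := tendsto_M hc
  have hMne : ∀ᶠ n : ℕ in atTop, (M c n : ℝ) / n ≠ 0 := hM.eventually_ne hρ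
  constructor
  · intro h
    have h1 := h.mul hM
    rw [one_mul] at h1
    refine h1.congr' ?_
    filter_upwards [hMne] with n hn
    have hM0 : (M c n : ℝ) ≠ 0 := by
      intro h0; rw [h0, zero_div] at hn; exact hn rfl
    have hn0 : (n : ℝ) ≠ 0 := by
      intro h0; rw [h0, div_zero] at hn; exact hn rfl
    field_simp
  · intro h
    have h1 := h.div hM hρ
    rw [div_self hρ] at h1
    refine h1.congr' ?_
    filter_upwards [hMne] with n hn
    have hn0 : (n : ℝ) ≠ 0 := by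
      intro h0; rw [h0, div_zero] at hn; exact hn rfl
    simp only [Pi.div_apply]
    exact div_div_div_cancel_right₀ hn0 _ _

open Pool.Agent.Helper923 in
/-- small reciprocal mass of `Q \ A` suffices -/
lemma of_QA {c : ℝ} (hc : 0 < c) (A : ℕ → Finset ℕ) (hA : ∀ n, Admissible c n (A n))
    (h : Tendsto (fun n : ℕ => ∑ a ∈ Q c n \ A n, (1 : ℝ) / a) atTop (𝓝 0)) :
    Tendsto (fun n : ℕ => (N n (A n) : ℝ) / n) atTop (𝓝 (HRho.rho (Real.exp c))) := by
  classical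
  apply tendsto_of_bounds
  · intro ε hε
    obtain ⟨N₀, hN₀⟩ := HReduce.reduce c ε hε
    filter_upwards [eventually_ge_atTop N₀] with n hn
    exact hN₀ n hn (A n) (hA n).1 (hA n).2.1 (hA n).2.2.le
  · intro ε hε
    filter_upwards [upper_Q hc (show 0 < ε / 2 by positivity),
      h.eventually_le_const (show 0 < ε / 2 by positivity)] with n h1 h2
    have h3 : N n (A n) ≤ N n (A n ∩ Q c n) := HConv.F_anti Finset.inter_subset_left n
    have h4 := HReduce.F_union_ge (A n ∩ Q c n) (Q c n \ A n) n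
    have h5 : (A n ∩ Q c n) ∪ (Q c n \ A n) = Q c n := by
      ext a
      rw [Finset.mem_union, Finset.mem_inter, Finset.mem_sdiff]
      tauto
    rw [h5] at h4
    have h3' : (N n (A n) : ℝ) ≤ N n (A n ∩ Q c n) := by exact_mod_cast h3
    have h6 : (n : ℝ) * ∑ a ∈ Q c n \ A n, (1 : ℝ) / a ≤ n * (ε / 2) :=
      mul_le_mul_of_nonneg_left h2 (by positivity)
    have h7 : (HCount.F (A n ∩ Q c n) n : ℝ) = N n (A n ∩ Q c n) := rfl
    have h8 : (HCount.F (Q c n) n : ℝ) = N n (Q c n) := rfl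
    rw [h7, h8] at h4
    have h9 : (n : ℝ) * (HRho.rho (Real.exp c) + ε)
      = n * (HRho.rho (Real.exp c) + ε / 2) + n * (ε / 2) := by ring
    linarith

open Pool.Agent.Helper923 in
/-- necessity -/
lemma necessity {c : ℝ} (hc : 0 < c) (A : ℕ → Finset ℕ) (hA : ∀ n, Admissible c n (A n))
    (h : Tendsto (fun n : ℕ => (N n (A n) : ℝ) / n) atTop (𝓝 (HRho.rho (Real.exp c)))) :
    Tendsto (fun n : ℕ => ∑ a ∈ A n, (1 : ℝ) / a) atTop (𝓝 c) ∧
    ∀ θ : ℝ, θ < min (1 / 2) (Real.exp (-c)) →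
      Tendsto (fun n : ℕ => ∑ a ∈ (A n).filter (fun a : ℕ => (a : ℝ) ≤ (n : ℝ) ^ θ), (1 : ℝ) / a)
        atTop (𝓝 0) := by
  have key : ∀ θ : ℝ, θ < min (1 / 2) (Real.exp (-c)) → ∀ η : ℝ, 0 < η → ∀ᶠ n : ℕ in atTop,
      c - η ≤ ∑ a ∈ A n, (1 : ℝ) / a ∧
      ∑ a ∈ (A n).filter (fun a : ℕ => (a : ℝ) ≤ (n : ℝ) ^ θ), (1 : ℝ) / a ≤ η := by
    intro θ hθ η hη
    obtain ⟨ε, hε, N₀, hN₀⟩ := HLow.low_mass hc hθ hη
    filter_upwards [h.eventually_le_const (show HRho.rho (Real.exp c) < HRho.rho (Real.exp c) + ε by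
      linarith), eventually_ge_atTop N₀, eventually_gt_atTop 0] with n h1 h2 h3
    have hn0 : (0 : ℝ) < n := by exact_mod_cast h3
    refine hN₀ n h2 (A n) (hA n).1 (hA n).2.1 (hA n).2.2 ?_
    rw [div_le_iff₀ hn0] at h1
    have h4 : (HCount.F (A n) n : ℝ) = N n (A n) := rfl
    rw [h4]; linarith
  constructor
  · rw [tendsto_order]
    constructor
    · intro b hb
      filter_upwards [key 0 (lt_min (by norm_num) (Real.exp_pos _)) ((c - b) / 2) (by linarith)]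
        with n hn
      linarith [hn.1]
    · intro b hb
      exact Eventually.of_forall (fun n => (hA n).2.2.trans hb)
  · intro θ hθ
    rw [tendsto_order]
    constructor
    · intro b hb
      refine Eventually.of_forall (fun n => lt_of_lt_of_le hb ?_)
      exact Finset.sum_nonneg (fun a _ => by positivity)
    · intro b hb
      filter_upwards [key θ hθ (b / 2) (by linarith)] with n hn
      linarith [hn.2]

open Pool.Agent.Helper923 in
/-- closeness to `Q` from the two conditions, when `e ^ (-c) ≤ 1 / 2` -/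
lemma close_Q {c : ℝ} (hc : 0 < c) (hc2 : Real.log 2 ≤ c) (A : ℕ → Finset ℕ)
    (hA : ∀ n, Admissible c n (A n))
    (h1 : Tendsto (fun n : ℕ => ∑ a ∈ A n, (1 : ℝ) / a) atTop (𝓝 c))
    (h2 : ∀ θ : ℝ, θ < min (1 / 2) (Real.exp (-c)) →
      Tendsto (fun n : ℕ => ∑ a ∈ (A n).filter (fun a : ℕ => (a : ℝ) ≤ (n : ℝ) ^ θ), (1 : ℝ) / a)
        atTop (𝓝 0)) :
    Tendsto (fun n : ℕ => ∑ a ∈ Q c n \ A n, (1 : ℝ) / a) atTop (𝓝 0) ∧
    Tendsto (fun n : ℕ => ∑ a ∈ A n \ Q c n, (1 : ℝ) / a) atTop (𝓝 0) := by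
  have hmin : min (1 / 2) (Real.exp (-c)) = Real.exp (-c) := by
    apply min_eq_right
    rw [Real.exp_neg, one_div]
    apply inv_anti₀ (by norm_num)
    rw [← Real.log_le_iff_le_exp (by norm_num)]
    exact hc2
  have key : ∀ ε : ℝ, 0 < ε → ∀ᶠ n : ℕ in atTop, ∑ a ∈ Q c n \ A n, (1 : ℝ) / a ≤ ε ∧
      ∑ a ∈ A n \ Q c n, (1 : ℝ) / a ≤ ε := by
    intro ε hε
    obtain ⟨η, hη, θ, _, hθ, N₀, hN₀⟩ := HConv.conv_large hc hε
    filter_upwards [h1.eventually_const_le (show c - η < c by linarith),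
      (h2 θ (by rw [hmin]; exact hθ)).eventually_le_const hη, eventually_ge_atTop N₀] with n h3 h4 h5
    exact hN₀ n h5 (A n) (hA n).1 (hA n).2.1 h3 (hA n).2.2.le h4
  constructor
  · rw [tendsto_order]
    constructor
    · intro b hb
      refine Eventually.of_forall (fun n => lt_of_lt_of_le hb ?_)
      exact Finset.sum_nonneg (fun a _ => by positivity)
    · intro b hb
      filter_upwards [key (b / 2) (by linarith)] with n hn
      linarith [hn.1]
  · rw [tendsto_order]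
    constructor
    · intro b hb
      refine Eventually.of_forall (fun n => lt_of_lt_of_le hb ?_)
      exact Finset.sum_nonneg (fun a _ => by positivity)
    · intro b hb
      filter_upwards [key (b / 2) (by linarith)] with n hn
      linarith [hn.2]

open Pool.Agent.Helper923 in
/-- sufficiency -/
lemma sufficiency {c : ℝ} (hc : 0 < c) (A : ℕ → Finset ℕ) (hA : ∀ n, Admissible c n (A n))
    (h1 : Tendsto (fun n : ℕ => ∑ a ∈ A n, (1 : ℝ) / a) atTop (𝓝 c))
    (h2 : ∀ θ : ℝ, θ < min (1 / 2) (Real.exp (-c)) →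
      Tendsto (fun n : ℕ => ∑ a ∈ (A n).filter (fun a : ℕ => (a : ℝ) ≤ (n : ℝ) ^ θ), (1 : ℝ) / a)
        atTop (𝓝 0)) :
    Tendsto (fun n : ℕ => (N n (A n) : ℝ) / n) atTop (𝓝 (HRho.rho (Real.exp c))) := by
  rcases le_or_gt (Real.log 2) c with hc2 | hc2
  · exact of_QA hc A hA (close_Q hc hc2 A hA h1 h2).1
  · have hρ : HRho.rho (Real.exp c) = 1 - c := by
      rw [HRho.rho_log (Real.one_le_exp hc.le), Real.log_exp]
      rw [← Real.le_log_iff_exp_le (by norm_num)]; exact hc2.le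
    have hmin : min (1 / 2) (Real.exp (-c)) = 1 / 2 := by
      apply min_eq_left
      rw [Real.exp_neg, one_div]
      apply inv_anti₀ (Real.exp_pos _)
      rw [← Real.le_log_iff_exp_le (by norm_num)]
      exact hc2.le
    apply tendsto_of_bounds
    · intro ε hε
      obtain ⟨N₀, hN₀⟩ := HReduce.reduce c ε hε
      filter_upwards [eventually_ge_atTop N₀] with n hn
      exact hN₀ n hn (A n) (hA n).1 (hA n).2.1 (hA n).2.2.le
    · intro ε hε
      obtain ⟨η, hη, θ, _, hθ, N₀, hN₀⟩ := HConv.conv_small (c := c) hε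
      filter_upwards [h1.eventually_const_le (show c - η < c by linarith),
        (h2 θ (by rw [hmin]; exact hθ)).eventually_le_const hη, eventually_ge_atTop N₀] with n h3 h4 h5
      rw [hρ]
      exact hN₀ n h5 (A n) (hA n).1 (hA n).2.1 h3 h4

open Pool.Agent.Helper923 in
theorem result : ∃ ρ : ℝ → ℝ,
    (Continuous ρ ∧ (∀ u : ℝ, u ≤ 1 → ρ u = 1) ∧
      (∀ u : ℝ, 1 < u → HasDerivAt ρ (-ρ (u - 1) / u) u) ∧ ∀ u : ℝ, 0 < ρ u) ∧
    ∀ c : ℝ, 0 < c →
      Tendsto (fun n : ℕ => (M c n : ℝ) / n) atTop (𝓝 (ρ (Real.exp c))) ∧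
      Tendsto (fun n : ℕ => (M c n : ℝ) / N n (Q c n)) atTop (𝓝 1) ∧
      (∀ᶠ n : ℕ in atTop, M c n < N n (Q c n)) ∧
      ∀ A : ℕ → Finset ℕ, (∀ n : ℕ, Admissible c n (A n)) →
        (Tendsto (fun n : ℕ => (N n (A n) : ℝ) / M c n) atTop (𝓝 1) ↔
          Tendsto (fun n : ℕ => ∑ a ∈ A n, (1 : ℝ) / a) atTop (𝓝 c) ∧
          ∀ θ : ℝ, θ < min (1 / 2) (Real.exp (-c)) →
            Tendsto (fun n : ℕ => ∑ a ∈ (A n).filter (fun a : ℕ => (a : ℝ) ≤ (n : ℝ) ^ θ), (1 : ℝ) / a)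
              atTop (𝓝 0)) ∧
        (Real.log 2 ≤ c →
          (Tendsto (fun n : ℕ => (N n (A n) : ℝ) / M c n) atTop (𝓝 1) ↔
            Tendsto (fun n : ℕ => ∑ a ∈ (A n \ Q c n) ∪ (Q c n \ A n), (1 : ℝ) / a) atTop (𝓝 0))) := by
  classical
  refine ⟨HRho.rho, ⟨HRho.rho_cont, fun u hu => HRho.rho_one hu, fun u hu => HRho.rho_hasDerivAt hu,
    HRho.rho_pos⟩, fun c hc => ?_⟩
  have hM := tendsto_M hc
  have hQ := tendsto_NQ hc
  refine ⟨hM, ?_, ?_, ?_⟩
  · have h1 := hM.div hQ (HRho.rho_pos _).ne'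
    rw [div_self (HRho.rho_pos _).ne'] at h1
    refine h1.congr' ?_
    filter_upwards [eventually_gt_atTop 0] with n hn
    have hn0 : (n : ℝ) ≠ 0 := by exact_mod_cast hn.ne'
    simp only [Pi.div_apply]
    exact div_div_div_cancel_right₀ hn0 _ _
  · filter_upwards [HStrict.strict hc] with n hn
    obtain ⟨A, hA, hlt⟩ := hn
    rw [Q_eq, N_eq]
    exact lt_of_le_of_lt (M_le (A := A) hA) hlt
  · intro A hA
    refine ⟨⟨fun h => necessity hc A hA ((ratio_iff hc _).mp h),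
      fun h => (ratio_iff hc _).mpr (sufficiency hc A hA h.1 h.2)⟩, fun hc2 => ⟨fun h => ?_, fun h => ?_⟩⟩
    · obtain ⟨h1, h2⟩ := necessity hc A hA ((ratio_iff hc _).mp h)
      obtain ⟨h3, h4⟩ := close_Q hc hc2 A hA h1 h2
      have h5 := h4.add h3
      rw [add_zero] at h5
      refine h5.congr (fun n => ?_)
      rw [Finset.sum_union]
      rw [Finset.disjoint_left]
      intro a ha hb
      rw [Finset.mem_sdiff] at ha hb
      exact ha.2 hb.1
    · apply (ratio_iff hc _).mpr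
      apply of_QA hc A hA
      refine squeeze_zero (fun n => Finset.sum_nonneg (fun a _ => by positivity)) (fun n => ?_) h
      exact Finset.sum_le_sum_of_subset_of_nonneg Finset.subset_union_right (fun a _ _ => by positivity)

end Pool.Agent.Results.MP_392d13_nt.Structure
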